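import Mathlib
import Pool.Agent.X186.MJ.H

/-!
# Margulis' injectivity radius conjecture over number fields near cyclotomic fields

Let `k` be a number field of arbitrary degree `m` which is contained in an extension of degree at
most `B` of a cyclotomic field (for `B = 1` these are, by the theorem of Kronecker and Weber, the
abelian number fields). Let `Γ` be a torsion-free group realized by integral matrices of size `n`
over `k`, with set `S` of noncompact embeddings. Every `γ ≠ 1` in `Γ` has an eigenvalue `l` under one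
of the noncompact embeddings with

  `32 (n B) ^ 2 |S| log |l| ≥ m log 2`.

So all the torsion-free arithmetic groups over the fields with `(n B) ^ 2 |S| ≤ C m` form a
uniformly discrete family (`C` fixed; `n`, `B` and `|S|` may grow); in particular all torsion-free
arithmetic groups over abelian number fields, and over extensions of bounded degree of abelian number
fields, with matrices of bounded size. Moreover, for a bounded number of noncompact embeddings the
injectivity radii tend to infinity with the degree of the field, at least linearly.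

Method. Let `x` be an eigenvalue, which is not a root of unity, and let `O` be the set of its
conjugates over `ℚ (ζ)`, `ζ` a primitive root of unity of order `f`. Let `p` be a prime number
between `4 n B` and `8 n B`. If `p` does not divide `f`, the Frobenius automorphism `τ` satisfies
`P ^ τ (y ^ p) ≡ P (y) ^ p` modulo `p` for the polynomial `P` of `x` over `ℚ (ζ)`; if `p` divides `f`,
the polynomial of the `p`-th powers is congruent modulo `p` to its conjugates under the
automorphisms `τ` fixing `ζ ^ p`. In both cases the Vandermonde determinant of the `p`-th powers of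
the elements of `O` and of the conjugates under `τ` of the elements of `O` (or of their `p`-th
powers) is divisible by a high power of `p`, and Hadamard's inequality gives the lower bound. If the
determinant vanishes then, for `p ∣ f`, there is a root of unity `η` such that `η x` has the same
degree over `ℚ (ζ ^ p)`: so `f` can be replaced by `f / p`. This is a variant of an argument of
Amoroso, Dvornicich and Zannier.

`Pool.Agent.H225R3.MargDefs` contains the definitions: `Realization ρ Γ k n S` (a homomorphism `r`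
from `Γ` to the `n` by `n` matrices over the ring of integers of the number field `k`, bounded under
all embeddings outside `S`, such that for `σ` in `S` the eigenvalues of `σ (r γ)` are eigenvalues of
`ρ γ`, and such that only `1` is mapped to a unipotent matrix) and `UniformlyDiscrete` (there is an
identity neighbourhood `U` such that `g U g⁻¹` meets every group of the family in the identity only).
-/

set_option autoImplicit false

namespace Pool.Agent.Results.MP_162bbe_gt.CyclotomicFields

open NumberField Module Pool.Agent.H225R3.Marg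

universe u

/-- There is no element of finite order other than the identity. -/
def TorsionFree {G : Type*} [Group G] (Γ : Subgroup G) : Prop :=
  ∀ γ ∈ Γ, ∀ N : ℕ, 0 < N → γ ^ N = 1 → γ = 1

/-- The number field `k` is a subfield of a number field `E` which has degree at most `B` over a
cyclotomic field `ℚ (ζ)` contained in `E`. -/
def NearCyclotomic (B : ℕ) (k : Type) [Field k] [NumberField k] : Prop :=
  ∃ (E : Type) (_ : Field E) (_ : NumberField E) (_ : Algebra k E) (m : ℕ) (ζ : E),
    0 < m ∧ IsPrimitiveRoot ζ m ∧ finrank (IntermediateField.adjoin ℚ {ζ}) E ≤ B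

/-- The torsion-free subgroups `Γ` of `G` that have a realization by matrices of some size `n` over
a number field `k` with `NearCyclotomic B k`, with set `S` of noncompact embeddings, where
`(n B) ^ 2 |S|` is at most `C` times the degree of `k`. -/
def Family (C : ℝ) {G : Type*} [Group G] {M : ℕ} (ρ : G →* Matrix (Fin M) (Fin M) ℂ) :
    Set (Subgroup G) :=
  {Γ | TorsionFree Γ ∧
    ∃ (k : Type) (_ : Field k) (_ : NumberField k) (n B : ℕ) (S : Finset (k →+* ℂ))
      (_ : Realization ρ Γ k n S), NearCyclotomic B k ∧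
        ((n * B : ℕ) : ℝ) ^ 2 * S.card ≤ C * finrank ℚ k}

/-- The torsion-free subgroups `Γ` of `G` that have a realization by matrices of size `n` over a
number field `k`, of any degree, with `NearCyclotomic B k`. -/
def FixedFamily (n B : ℕ) {G : Type*} [Group G] {M : ℕ} (ρ : G →* Matrix (Fin M) (Fin M) ℂ) :
    Set (Subgroup G) :=
  {Γ | TorsionFree Γ ∧
    ∃ (k : Type) (_ : Field k) (_ : NumberField k) (S : Finset (k →+* ℂ))
      (_ : Realization ρ Γ k n S), NearCyclotomic B k}

/-- The torsion-free subgroups `Γ` of `G` that have a realization by matrices of size `n`, with at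
most `s` noncompact embeddings, over a number field `k` of degree at least `m₀`, with
`NearCyclotomic B k`. -/
def LargeDegreeFamily (n B s m₀ : ℕ) {G : Type*} [Group G] {M : ℕ}
    (ρ : G →* Matrix (Fin M) (Fin M) ℂ) : Set (Subgroup G) :=
  {Γ | TorsionFree Γ ∧
    ∃ (k : Type) (_ : Field k) (_ : NumberField k) (S : Finset (k →+* ℂ))
      (_ : Realization ρ Γ k n S), NearCyclotomic B k ∧ S.card ≤ s ∧ m₀ ≤ finrank ℚ k}

/-- **Margulis' conjecture over number fields near cyclotomic fields.**

1. Let `Γ` be a torsion-free group with a realization `R` of size `n`, with set `S` of noncompact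
   embeddings, over a number field `k` of degree `m` with `NearCyclotomic B k`. Then every `γ ≠ 1` in
   `Γ` has an eigenvalue `l` under one of the noncompact embeddings, which is also an eigenvalue of
   `ρ γ`, with `|l| > 1` and `m log 2 ≤ 32 (n B) ^ 2 |S| log |l|`.
2. For every continuous finite dimensional complex representation `ρ` of a topological group `G` and
   every `C`, the family `Family C ρ` is uniformly discrete.
3. The same is true for `FixedFamily n B ρ`.
4. For every compact subset `K` of `G` and all `n`, `B`, `s` there is `m₀` such that all conjugates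
   of `K` meet all the groups of `LargeDegreeFamily n B s m₀ ρ` at most in the identity.
5. Subfields of cyclotomic fields satisfy `NearCyclotomic 1`.
6. If `NearCyclotomic B k` and `L` is an extension of `k` of degree at most `d` then
   `NearCyclotomic (d B) L`. -/
theorem result :
    (∀ (G : Type u) [Group G] (M : ℕ) (ρ : G →* Matrix (Fin M) (Fin M) ℂ)
      (Γ : Subgroup G) (k : Type) [Field k] [NumberField k]
      (n B : ℕ) (S : Finset (k →+* ℂ)) (R : Realization ρ Γ k n S), TorsionFree Γ →
      NearCyclotomic B k →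
      ∀ γ : Γ, γ ≠ 1 → ∃ σ ∈ S, ∃ l : ℂ, IsEig (conjMat σ (R.r γ)) l ∧ IsEig (ρ γ) l ∧ 1 < ‖l‖ ∧
        (finrank ℚ k : ℝ) * Real.log 2 ≤ 32 * ((n * B : ℕ) : ℝ) ^ 2 * S.card * Real.log ‖l‖) ∧
    (∀ (G : Type u) [Group G] [TopologicalSpace G] (M : ℕ) (ρ : G →* Matrix (Fin M) (Fin M) ℂ),
      Continuous ρ → ∀ C : ℝ, UniformlyDiscrete (Family C ρ)) ∧
    (∀ (G : Type u) [Group G] [TopologicalSpace G] (M : ℕ) (ρ : G →* Matrix (Fin M) (Fin M) ℂ),
      Continuous ρ → ∀ n B : ℕ, UniformlyDiscrete (FixedFamily n B ρ)) ∧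
    (∀ (G : Type u) [Group G] [TopologicalSpace G] (M : ℕ) (ρ : G →* Matrix (Fin M) (Fin M) ℂ),
      Continuous ρ → ∀ K : Set G, IsCompact K → ∀ n B s : ℕ, ∃ m₀ : ℕ,
        ∀ Γ ∈ LargeDegreeFamily n B s m₀ ρ, ∀ g : G, ∀ u ∈ K, g * u * g⁻¹ ∈ Γ →
          g * u * g⁻¹ = 1) ∧
    (∀ (k E : Type) [Field k] [NumberField k] [Field E] [NumberField E] [Algebra k E] (m : ℕ),
      0 < m → IsCyclotomicExtension {m} ℚ E → NearCyclotomic 1 k) ∧
    (∀ (k L : Type) [Field k] [NumberField k] [Field L] [NumberField L] [Algebra k L] (B d : ℕ),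
      finrank k L ≤ d → NearCyclotomic B k → NearCyclotomic (d * B) L) := by
  have aux : ∀ {G : Type u} [Group G] {M : ℕ} {ρ : G →* Matrix (Fin M) (Fin M) ℂ}
      {Γ : Subgroup G} {k : Type} [Field k] [NumberField k] {n : ℕ} {S : Finset (k →+* ℂ)}
      (R : Realization ρ Γ k n S) (_ : TorsionFree Γ)
      (γ : Γ), γ ≠ 1 → ∀ N : ℕ, 0 < N → ¬ IsNilpotent (R.r γ ^ N - 1) := by
    intro G _ M ρ Γ k _ _ n S R htf γ hγ N hN h0
    rw [← map_pow] at h0
    have h1 := R.unipotent _ h0
    have h2 : (γ : G) ^ N = 1 := congrArg Subtype.val h1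
    exact hγ (Subtype.ext (htf _ γ.2 N hN h2))
  have main : ∀ (G : Type u) [Group G] (M : ℕ) (ρ : G →* Matrix (Fin M) (Fin M) ℂ)
      (Γ : Subgroup G) (k : Type) [Field k] [NumberField k]
      (n B : ℕ) (S : Finset (k →+* ℂ)) (R : Realization ρ Γ k n S), TorsionFree Γ →
      NearCyclotomic B k →
      ∀ γ : Γ, γ ≠ 1 → ∃ σ ∈ S, ∃ l : ℂ, IsEig (conjMat σ (R.r γ)) l ∧ IsEig (ρ γ) l ∧ 1 < ‖l‖ ∧
        (finrank ℚ k : ℝ) * Real.log 2 ≤
          32 * ((n * B : ℕ) : ℝ) ^ 2 * S.card * Real.log ‖l‖ := by
    intro G _ M ρ Γ k _ _ n B S R htf hk γ hγ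
    obtain ⟨E, _, _, _, m, ζ, hm, hζ, hB⟩ := hk
    obtain ⟨σ, hσ, l, hl, hl1, hlow⟩ := Pool.Agent.X186.MJ.gap_cyc k E m hm ζ hζ B n hB S (R.r γ)
      ((Group.isUnit γ).map R.r) (fun σ hσ l hl => R.comp' _ σ hσ l hl) (aux R htf γ hγ)
    have hl' : IsEig (conjMat σ (R.r γ)) l := hl
    exact ⟨σ, hσ, l, hl', R.eig σ hσ γ l hl', hl1, hlow⟩
  -- an eigenvalue of a conjugate
  have eigconj : ∀ {G : Type u} [Group G] {M : ℕ} (ρ : G →* Matrix (Fin M) (Fin M) ℂ) (g u : G)
      (l : ℂ), IsEig (ρ (g * u * g⁻¹)) l → IsEig (ρ u) l := by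
    intro G _ M ρ g u l h
    have h2 : (ρ (g * u * g⁻¹)).charpoly = (ρ u).charpoly := by
      rw [map_mul, map_mul]
      have h4 : ρ g⁻¹ * ρ g = 1 := by rw [← map_mul, inv_mul_cancel, map_one]
      rw [Matrix.charpoly_mul_comm, ← mul_assoc, h4, one_mul]
    rwa [IsEig, h2] at h
  have hlog2 : 0 < Real.log 2 := Real.log_pos (by norm_num)
  have fam : ∀ (G : Type u) [Group G] [TopologicalSpace G] (M : ℕ)
      (ρ : G →* Matrix (Fin M) (Fin M) ℂ), Continuous ρ → ∀ C : ℝ,
      UniformlyDiscrete (Family C ρ) := by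
    intro G _ _ M ρ hρ C
    -- a positive constant
    set C' : ℝ := max C 1 with hC'
    have hC'0 : 0 < C' := lt_of_lt_of_le one_pos (le_max_right _ _)
    obtain ⟨ε, hε, h⟩ := Pool.Agent.X186.MJ.exists_eps 1 (Real.log 2 / (32 * C')) (by positivity)
    refine ⟨_, nhd ρ hρ ε hε, ?_⟩
    rintro Γ ⟨htf, k, _, _, n, B, S, R, hk, hS⟩ g v hv hΓ
    by_contra hne
    obtain ⟨σ, hσ, l, -, hl, hl1, hlow⟩ := main G M ρ Γ k n B S R htf hk ⟨g * v * g⁻¹, hΓ⟩
      (fun h => hne (congrArg Subtype.val h))
    have hl2 := eigconj ρ g v l hl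
    have h3 : ‖l - 1‖ < ε := close_eig (ρ v) ε hε hv l hl2
    refine absurd h3 (not_lt.mpr (h l ?_ hl1))
    have hk0 : (0 : ℝ) < finrank ℚ k := by exact_mod_cast (finrank_pos : 0 < finrank ℚ k)
    have hlog : 0 < Real.log ‖l‖ := Real.log_pos hl1
    have h4 : ((n * B : ℕ) : ℝ) ^ 2 * S.card ≤ C' * finrank ℚ k :=
      hS.trans (mul_le_mul_of_nonneg_right (le_max_left _ _) hk0.le)
    have h5 : (finrank ℚ k : ℝ) * Real.log 2 ≤ finrank ℚ k * (32 * C' * Real.log ‖l‖) := by
      calc (finrank ℚ k : ℝ) * Real.log 2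
          ≤ 32 * ((n * B : ℕ) : ℝ) ^ 2 * S.card * Real.log ‖l‖ := hlow
        _ = 32 * (((n * B : ℕ) : ℝ) ^ 2 * S.card) * Real.log ‖l‖ := by ring
        _ ≤ 32 * (C' * finrank ℚ k) * Real.log ‖l‖ := by
            apply mul_le_mul_of_nonneg_right _ hlog.le
            linarith
        _ = _ := by ring
    have h6 : Real.log 2 ≤ 32 * C' * Real.log ‖l‖ := le_of_mul_le_mul_left h5 hk0
    rw [Nat.cast_one, one_mul, div_le_iff₀ (by positivity)]
    linarith
  refine ⟨main, fam, ?_, ?_, ?_, ?_⟩
  · intro G _ _ M ρ hρ n B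
    obtain ⟨U, hU, h⟩ := fam G M ρ hρ (((n * B : ℕ) : ℝ) ^ 2)
    refine ⟨U, hU, fun Γ hΓ => h Γ ?_⟩
    obtain ⟨htf, k, i1, i2, S, R, hk⟩ := hΓ
    refine ⟨htf, k, i1, i2, n, B, S, R, hk, ?_⟩
    apply mul_le_mul_of_nonneg_left _ (by positivity)
    have h1 : S.card ≤ Fintype.card (k →+* ℂ) := Finset.card_le_univ S
    rw [NumberField.Embeddings.card] at h1
    exact_mod_cast h1
  · intro G _ _ M ρ hρ K hK n B s
    -- a bound for the entries
    obtain ⟨b, hb⟩ : ∃ b : ℝ, ∀ u ∈ K, ∀ i j, ‖ρ u i j‖ ≤ b := by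
      have h1 : ∀ i j, ∃ b : ℝ, ∀ u ∈ K, ‖ρ u i j‖ ≤ b := by
        intro i j
        have hc : Continuous fun g : G => ρ g i j := (continuous_apply_apply i j).comp hρ
        obtain ⟨b, hb⟩ := (hK.image hc).isBounded.exists_norm_le
        exact ⟨b, fun u hu => hb _ ⟨u, hu, rfl⟩⟩
      choose b hb using h1
      refine ⟨∑ i, ∑ j, |b i j|, fun u hu i j => ?_⟩
      have h2 : |b i j| ≤ ∑ j, |b i j| :=
        Finset.single_le_sum (f := fun j => |b i j|) (fun _ _ => abs_nonneg _) (Finset.mem_univ j)
      have h3 : ∑ j, |b i j| ≤ ∑ i, ∑ j, |b i j| :=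
        Finset.single_le_sum (f := fun i => ∑ j, |b i j|)
          (fun _ _ => Finset.sum_nonneg fun _ _ => abs_nonneg _) (Finset.mem_univ i)
      exact (hb i j u hu).trans ((le_abs_self _).trans (h2.trans h3))
    set A : ℝ := max 1 (M * b) with hA
    have hA1 : 1 ≤ A := le_max_left _ _
    obtain ⟨m₀, hm₀⟩ := exists_nat_gt (32 * ((n * B : ℕ) : ℝ) ^ 2 * s * Real.log A / Real.log 2)
    refine ⟨m₀, ?_⟩
    rintro Γ ⟨htf, k, _, _, S, R, hk, hS, hdeg⟩ g u hu hΓ
    by_contra hne
    obtain ⟨σ, hσ, l, -, hl, hl1, hlow⟩ := main G M ρ Γ k n B S R htf hk ⟨g * u * g⁻¹, hΓ⟩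
      (fun h => hne (congrArg Subtype.val h))
    have hl2 := eigconj ρ g u l hl
    obtain ⟨v, hv, hv2⟩ := exists_eigvec (ρ u) l hl2
    have h3 : ‖l‖ ≤ A := (eig_le (ρ u) l b v hv hv2 (hb u hu)).trans (le_max_right _ _)
    have h4 : Real.log ‖l‖ ≤ Real.log A := Real.log_le_log (by linarith) h3
    have hlogA : 0 ≤ Real.log A := Real.log_nonneg hA1
    have h5 : 32 * ((n * B : ℕ) : ℝ) ^ 2 * S.card * Real.log ‖l‖ ≤
        32 * ((n * B : ℕ) : ℝ) ^ 2 * s * Real.log A := by
      have hSs : (S.card : ℝ) ≤ s := by exact_mod_cast hS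
      have h6 : 32 * ((n * B : ℕ) : ℝ) ^ 2 * S.card ≤ 32 * ((n * B : ℕ) : ℝ) ^ 2 * s :=
        mul_le_mul_of_nonneg_left hSs (by positivity)
      exact mul_le_mul h6 h4 (Real.log_nonneg hl1.le) (by positivity)
    have h7 : (m₀ : ℝ) ≤ finrank ℚ k := by exact_mod_cast hdeg
    rw [div_lt_iff₀ hlog2] at hm₀
    have h8 : (m₀ : ℝ) * Real.log 2 ≤ finrank ℚ k * Real.log 2 :=
      mul_le_mul_of_nonneg_right h7 hlog2.le
    linarith
  · intro k E _ _ _ _ _ m hm hcyc
    exact Pool.Agent.X186.MJ.near_one k E m hm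
  · intro k L _ _ _ _ _ B d hd h
    exact Pool.Agent.X186.MJ.near_ext k L B d hd h

end Pool.Agent.Results.MP_162bbe_gt.CyclotomicFields
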