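import Mathlib
import Pool.Agent.Y399.MG.H

/-!
# Margulis' injectivity radius conjecture over number fields of large discriminant

Number fields `k`, of any degree `m`, are considered whose root discriminant is at least `δ m`. All
torsion-free arithmetic groups over these fields, realized by integral matrices of a fixed size `n`,
with at most `s` noncompact embeddings, any two of which generate together a field of degree larger
than `s n² m`, form a uniformly discrete family. For `s = 1` the last condition is void; if the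
Galois group of the normal closure of `k` is doubly transitive, it says `m - 1 > s n²`.

The lower bounds for eigenvalues are `Pool.Agent.Y399.MG.lower`.
-/

set_option autoImplicit false

namespace Pool.Agent.Results.MP_162bbe_gt.LargeDiscriminants

open NumberField Module Pool.Agent.H225R3.Marg

universe u

/-- There is no element of finite order other than the identity. -/
def TorsionFree {G : Type*} [Group G] (Γ : Subgroup G) : Prop :=
  ∀ γ ∈ Γ, ∀ N : ℕ, 0 < N → γ ^ N = 1 → γ = 1

/-- The root discriminant of `k` is at least `δ` times the degree of `k`. -/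
def LargeDiscriminant (δ : ℝ) (k : Type) [Field k] [NumberField k] : Prop :=
  (δ * finrank ℚ k) ^ finrank ℚ k ≤ |(discr k : ℝ)|

/-- Any two different embeddings in `S` generate together a field of degree larger than `D` times
the degree of `k`. -/
def Spread (D : ℕ) {k : Type} [Field k] [NumberField k] (S : Finset (k →+* ℂ)) : Prop :=
  ∀ σ ∈ S, ∀ σ' ∈ S, σ ≠ σ' →
    D * finrank ℚ k < finrank ℚ (IntermediateField.adjoin ℚ (Set.range σ ∪ Set.range σ'))

/-- The torsion-free subgroups `Γ` of `G` that have a realization by matrices of size `n`, with at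
most `s` noncompact embeddings, over a number field `k` of root discriminant at least `δ` times its
degree, any two different noncompact embeddings generating together a field of degree larger than
`s n²` times the degree of `k`. -/
def Family (δ : ℝ) (s n : ℕ) {G : Type*} [Group G] {M : ℕ}
    (ρ : G →* Matrix (Fin M) (Fin M) ℂ) : Set (Subgroup G) :=
  {Γ | TorsionFree Γ ∧
    ∃ (k : Type) (_ : Field k) (_ : NumberField k) (S : Finset (k →+* ℂ))
      (_ : Realization ρ Γ k n S), S.card ≤ s ∧ Spread (s * n ^ 2) S ∧ LargeDiscriminant δ k}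

/-- **Margulis' conjecture over number fields of large discriminant.** There is an absolute constant
`c > 0` with the following property. Let `Γ` be a torsion-free group with a realization `R` of size
`n` over a number field `k` with `LargeDiscriminant δ k`, `δ > 0`, with at most `s` noncompact
embeddings, which are spread. Then every `γ ≠ 1` in `Γ` has an eigenvalue `l` under one of the
noncompact embeddings, which is also an eigenvalue of `ρ γ`, with `|l| > 1` and
`s n log |l| ≥ c (log log (16 + n / δ) / log (16 + n / δ)) ^ 3`. For every continuous finite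
dimensional complex representation `ρ` of a topological group `G`, the family `Family δ s n ρ` is
uniformly discrete. For one noncompact embedding the condition `Spread` is void. -/
theorem result :
    (∃ c : ℝ, 0 < c ∧ ∀ (G : Type u) [Group G] (M : ℕ) (ρ : G →* Matrix (Fin M) (Fin M) ℂ)
      (Γ : Subgroup G) (k : Type) [Field k] [NumberField k]
      (n s : ℕ) (S : Finset (k →+* ℂ)) (R : Realization ρ Γ k n S) (δ : ℝ), TorsionFree Γ →
      S.card ≤ s → Spread (s * n ^ 2) S → 0 < δ → LargeDiscriminant δ k →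
      ∀ γ : Γ, γ ≠ 1 → ∃ σ ∈ S, ∃ l : ℂ, IsEig (conjMat σ (R.r γ)) l ∧ IsEig (ρ γ) l ∧ 1 < ‖l‖ ∧
        c * (Real.log (Real.log (16 + n / δ)) / Real.log (16 + n / δ)) ^ 3 ≤
          (s * n : ℕ) * Real.log ‖l‖) ∧
    (∀ (G : Type u) [Group G] [TopologicalSpace G] (M : ℕ) (ρ : G →* Matrix (Fin M) (Fin M) ℂ),
      Continuous ρ → ∀ (δ : ℝ), 0 < δ → ∀ (s n : ℕ), UniformlyDiscrete (Family δ s n ρ)) ∧
    (∀ (D : ℕ) (k : Type) [Field k] [NumberField k] (S : Finset (k →+* ℂ)), S.card ≤ 1 →
      Spread D S) := by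
  obtain ⟨c, hc, hlow⟩ := Pool.Agent.Y399.MG.lower
  have aux : ∀ {G : Type u} [Group G] {M : ℕ} {ρ : G →* Matrix (Fin M) (Fin M) ℂ}
      {Γ : Subgroup G} {k : Type} [Field k] [NumberField k] {n : ℕ} {S : Finset (k →+* ℂ)}
      (R : Realization ρ Γ k n S) (_ : TorsionFree Γ)
      (γ : Γ), γ ≠ 1 → ∀ N : ℕ, 0 < N → ¬ IsNilpotent (R.r γ ^ N - 1) := by
    intro G _ M ρ Γ k _ _ n S R htf γ hγ N hN h0
    rw [← map_pow] at h0
    have h1 := R.unipotent _ h0
    have h2 : (γ : G) ^ N = 1 := congrArg Subtype.val h1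
    exact hγ (Subtype.ext (htf _ γ.2 N hN h2))
  -- the gap for matrices
  have gap : ∀ (k : Type) [Field k] [NumberField k] (n s : ℕ) (S : Finset (k →+* ℂ))
      (A : Matrix (Fin n) (Fin n) (𝓞 k)) (δ : ℝ), S.card ≤ s → Spread (s * n ^ 2) S → 0 < δ →
      LargeDiscriminant δ k → IsUnit A →
      (∀ σ : k →+* ℂ, σ ∉ S → ∀ l : ℂ, ((emb σ).mapMatrix A).charpoly.IsRoot l → ‖l‖ ≤ 1) →
      (∀ N : ℕ, 0 < N → ¬ IsNilpotent (A ^ N - 1)) →
      ∃ σ ∈ S, ∃ l : ℂ, ((emb σ).mapMatrix A).charpoly.IsRoot l ∧ 1 < ‖l‖ ∧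
        c * (Real.log (Real.log (16 + n / δ)) / Real.log (16 + n / δ)) ^ 3 ≤
          (s * n : ℕ) * Real.log ‖l‖ := by
    intro k _ _ n s S A δ hs hsp hδ hd hA hout hnil
    refine Pool.Agent.Y399.MG.gap_of k n S A (fun R =>
      c * (Real.log (Real.log (16 + n / δ)) / Real.log (16 + n / δ)) ^ 3 ≤
        (s * n : ℕ) * Real.log R) ?_ hA hout hnil
    intro L _ _ _ x R hx0 hxi hroot hR hout' hin hdeg
    exact hlow k L S x s n δ R hx0 hxi hroot hR hout' hin hs hdeg
      (fun σ hσ σ' hσ' hne => hsp σ hσ σ' hσ' hne) hδ hd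
  refine ⟨⟨c, hc, ?_⟩, ?_, ?_⟩
  · intro G _ M ρ Γ k _ _ n s S R δ htf hs hsp hδ hd γ hγ
    obtain ⟨σ, hσ, l, hl, hl1, hlow'⟩ := gap k n s S (R.r γ) δ hs hsp hδ hd
      ((Group.isUnit γ).map R.r) (fun σ hσ l hl => R.comp' _ σ hσ l hl) (aux R htf γ hγ)
    have hl' : IsEig (conjMat σ (R.r γ)) l := hl
    exact ⟨σ, hσ, l, hl', R.eig σ hσ γ l hl', hl1, hlow'⟩
  · intro G _ _ M ρ hρ δ hδ s n
    have hx : (16 : ℝ) ≤ 16 + n / δ := by
      have : 0 ≤ (n : ℝ) / δ := by positivity
      linarith
    have h1 : 1 < Real.log (16 + n / δ) := by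
      have h2 : Real.log (Real.exp 1) < Real.log (16 + n / δ) := by
        apply Real.log_lt_log (Real.exp_pos _)
        linarith [Real.exp_one_lt_d9]
      rwa [Real.log_exp] at h2
    have h3 : 0 < Real.log (Real.log (16 + n / δ)) := Real.log_pos h1
    obtain ⟨ε, hε, h⟩ := Pool.Agent.Y399.MG.exists_eps (s * n)
      (c * (Real.log (Real.log (16 + n / δ)) / Real.log (16 + n / δ)) ^ 3)
      (mul_pos hc (pow_pos (div_pos h3 (by linarith)) 3))
    refine ⟨_, nhd ρ hρ ε hε, ?_⟩
    rintro Γ ⟨htf, k, _, _, S, R, hs, hsp, hd⟩ g v hv hΓ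
    refine final_step' R htf ε hε g v hv hΓ fun hnil => ?_
    have hunit : IsUnit (R.r ⟨g * v * g⁻¹, hΓ⟩) :=
      (Group.isUnit (⟨g * v * g⁻¹, hΓ⟩ : Γ)).map R.r
    obtain ⟨σ, hσ, l, hl, hl1, hlow'⟩ := gap k n s S _ δ hs hsp hδ hd hunit
      (fun σ hσ l hl => R.comp' _ σ hσ l hl) hnil
    exact ⟨σ, hσ, l, hl, h l hlow' hl1⟩
  · intro D k _ _ S hS σ hσ σ' hσ' hne
    exact absurd (Finset.card_le_one.1 hS σ hσ σ' hσ') hne

end Pool.Agent.Results.MP_162bbe_gt.LargeDiscriminants
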