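import Mathlib
import Pool.Agent.X186.MK.A
import Pool.Agent.X186.MJ.H

/-!
# Margulis' injectivity radius conjecture over fields in nearly abelian extensions

Let `K` be a number field and `P` a prime ideal of its ring of integers, for instance `K = ℚ` and a
prime number. Let `k` be a number field of arbitrary degree `d` which is contained in a finite Galois
extension `k'` of `K`, of arbitrary degree, such that

* for all `σ` in the Galois group of `k'` over `K`, `σ ^ m` has at most `B` conjugates;
* the ramification indices of `k'` over `K` at the primes above `P` are at most `e`.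

The first condition is satisfied (for `m = t!`, `B = t`) if the Galois group has an abelian subgroup
of index at most `t`, and (for `B = 1`) if its quotient by its centre has exponent `m`. For instance
`k` may be a subfield of the Hilbert class field `k'` of any Galois extension of `ℚ` of degree at most
`t`; then all ramification indices are at most `t`.

Let `Γ` be a torsion-free group realized by integral matrices of size `n` over `k`, with set `S` of
noncompact embeddings. Every `γ ≠ 1` in `Γ` has an eigenvalue `l` under one of the noncompact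
embeddings with

  `d ≤ C e |S| log |l|`, where `C` depends on `K`, `P`, `m`, `B`, `n` only.

So all the torsion-free arithmetic groups over such fields, with `e |S| ≤ c d`, form a uniformly
discrete family (`c`, `n`, `m` and `B` fixed), and for bounded `e` and `|S|` the injectivity radii
tend to infinity with the degree of `k`, at least linearly.

Method. The lower bound `Pool.Agent.H627.LP.final` for canonical heights of points over `k'` of the
endomorphism of projective space given by the characteristic polynomials of the `p`-th powers of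
matrices does not depend on the degree of `k'`; the upper bound is computed over `k`.

`Pool.Agent.H225R3.MargDefs` contains the definitions: `Realization ρ Γ k n S` (a homomorphism `r`
from `Γ` to the `n` by `n` matrices over the ring of integers of the number field `k`, bounded under
all embeddings outside `S`, such that for `σ` in `S` the eigenvalues of `σ (r γ)` are eigenvalues of
`ρ γ`, and such that only `1` is mapped to a unipotent matrix) and `UniformlyDiscrete` (there is an
identity neighbourhood `U` such that `g U g⁻¹` meets every group of the family in the identity only).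
-/

set_option autoImplicit false

namespace Pool.Agent.Results.MP_162bbe_gt.NearlyAbelianFields

open NumberField Module Pool.Agent.H225R3.Marg

universe u

/-- There is no element of finite order other than the identity. -/
def TorsionFree {G : Type*} [Group G] (Γ : Subgroup G) : Prop :=
  ∀ γ ∈ Γ, ∀ N : ℕ, 0 < N → γ ^ N = 1 → γ = 1

/-- The number field `k` is a subfield of a finite Galois extension `k'` of `K` such that, for all
`σ` in the Galois group, `σ ^ m` has at most `B` conjugates, and the ramification indices of `k'`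
over `K` at the primes above `P` are at most `e`. -/
def NearlyAbelian (K : Type) [Field K] [NumberField K] (P : Ideal (𝓞 K)) (m B e : ℕ)
    (k : Type) [Field k] [NumberField k] : Prop :=
  ∃ (k' : Type) (_ : Field k') (_ : NumberField k') (_ : Algebra k k') (_ : Algebra K k'),
    IsGalois K k' ∧
    (∀ σ : Gal(k'/K), (Set.range fun g : Gal(k'/K) => g * σ ^ m * g⁻¹).ncard ≤ B) ∧
    (∀ 𝔓 : Ideal (𝓞 k'), 𝔓.IsPrime → 𝔓.under (𝓞 K) = P → 𝔓.ramificationIdx (𝓞 K) ≤ e)

/-- The torsion-free subgroups `Γ` of `G` that have a realization by matrices of size `n` over a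
number field `k`, of any degree, with `NearlyAbelian K P m B e k` for some `e ≥ 1`, with set `S` of
noncompact embeddings, where `e |S|` is at most `c` times the degree of `k`. -/
def Family (K : Type) [Field K] [NumberField K] (P : Ideal (𝓞 K)) (m B n : ℕ) (c : ℝ)
    {G : Type*} [Group G] {M : ℕ} (ρ : G →* Matrix (Fin M) (Fin M) ℂ) : Set (Subgroup G) :=
  {Γ | TorsionFree Γ ∧
    ∃ (k : Type) (_ : Field k) (_ : NumberField k) (e : ℕ) (S : Finset (k →+* ℂ))
      (_ : Realization ρ Γ k n S), 0 < e ∧ NearlyAbelian K P m B e k ∧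
        (e : ℝ) * S.card ≤ c * finrank ℚ k}

/-- The torsion-free subgroups `Γ` of `G` that have a realization by matrices of size `n`, with at
most `s` noncompact embeddings, over a number field `k` of degree at least `d₀`, with
`NearlyAbelian K P m B e k`. -/
def LargeDegreeFamily (K : Type) [Field K] [NumberField K] (P : Ideal (𝓞 K)) (m B e n s d₀ : ℕ)
    {G : Type*} [Group G] {M : ℕ} (ρ : G →* Matrix (Fin M) (Fin M) ℂ) : Set (Subgroup G) :=
  {Γ | TorsionFree Γ ∧
    ∃ (k : Type) (_ : Field k) (_ : NumberField k) (S : Finset (k →+* ℂ))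
      (_ : Realization ρ Γ k n S), NearlyAbelian K P m B e k ∧ S.card ≤ s ∧ d₀ ≤ finrank ℚ k}

/-- **Margulis' conjecture over fields in nearly abelian extensions.** Let `P` be a prime ideal of the
ring of integers of `K` which contains the prime number `p`, and `m ≥ 1`.

1. There is a constant `C`, depending on `K`, `P`, `m`, `B` and `n` only, with the following property.
   Let `Γ` be a torsion-free group with a realization `R` of size `n`, with set `S` of noncompact
   embeddings, over a number field `k` with `NearlyAbelian K P m B e k`, `e ≥ 1`. Then every `γ ≠ 1`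
   in `Γ` has an eigenvalue `l` under one of the noncompact embeddings, which is also an eigenvalue
   of `ρ γ`, with `|l| > 1` and `[k : ℚ] ≤ C e |S| log |l|`.
2. For every continuous finite dimensional complex representation `ρ` of a topological group `G` and
   every `c`, the family `Family K P m B n c ρ` is uniformly discrete.
3. For every compact subset `Q` of `G` and all `e`, `s` there is `d₀` such that all conjugates of `Q`
   meet all the groups of `LargeDegreeFamily K P m B e n s d₀ ρ` at most in the identity.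
4. If the Galois group of `k'` over `K` has an abelian subgroup of index at most `t`, then
   `σ ^ (t!)` has at most `t` conjugates for all `σ`. -/
theorem result (K : Type) [Field K] [NumberField K] (p : ℕ) (hp : p.Prime) (P : Ideal (𝓞 K))
    (hP : P.IsPrime) (hpP : (p : 𝓞 K) ∈ P) (m B n : ℕ) (hm : 1 ≤ m) :
    (∃ C : ℝ, 0 < C ∧ ∀ (G : Type u) [Group G] (M : ℕ) (ρ : G →* Matrix (Fin M) (Fin M) ℂ)
      (Γ : Subgroup G) (k : Type) [Field k] [NumberField k]
      (e : ℕ) (S : Finset (k →+* ℂ)) (R : Realization ρ Γ k n S), TorsionFree Γ → 0 < e →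
      NearlyAbelian K P m B e k →
      ∀ γ : Γ, γ ≠ 1 → ∃ σ ∈ S, ∃ l : ℂ, IsEig (conjMat σ (R.r γ)) l ∧ IsEig (ρ γ) l ∧ 1 < ‖l‖ ∧
        (finrank ℚ k : ℝ) ≤ C * e * S.card * Real.log ‖l‖) ∧
    (∀ (G : Type u) [Group G] [TopologicalSpace G] (M : ℕ) (ρ : G →* Matrix (Fin M) (Fin M) ℂ),
      Continuous ρ → ∀ c : ℝ, UniformlyDiscrete (Family K P m B n c ρ)) ∧
    (∀ (G : Type u) [Group G] [TopologicalSpace G] (M : ℕ) (ρ : G →* Matrix (Fin M) (Fin M) ℂ),
      Continuous ρ → ∀ Q : Set G, IsCompact Q → ∀ e s : ℕ, ∃ d₀ : ℕ,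
        ∀ Γ ∈ LargeDegreeFamily K P m B e n s d₀ ρ, ∀ g : G, ∀ u ∈ Q, g * u * g⁻¹ ∈ Γ →
          g * u * g⁻¹ = 1) ∧
    (∀ (k' : Type) [Field k'] [NumberField k'] [Algebra K k'] [IsGalois K k'] (t : ℕ)
      (H : Subgroup Gal(k'/K)), (∀ x ∈ H, ∀ y ∈ H, x * y = y * x) → H.index ≤ t →
      ∀ σ : Gal(k'/K),
        (Set.range fun g : Gal(k'/K) => g * σ ^ t.factorial * g⁻¹).ncard ≤ t) := by
  have aux : ∀ {G : Type u} [Group G] {M : ℕ} {ρ : G →* Matrix (Fin M) (Fin M) ℂ}
      {Γ : Subgroup G} {k : Type} [Field k] [NumberField k] {n : ℕ} {S : Finset (k →+* ℂ)}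
      (R : Realization ρ Γ k n S) (_ : TorsionFree Γ)
      (γ : Γ), γ ≠ 1 → ∀ N : ℕ, 0 < N → ¬ IsNilpotent (R.r γ ^ N - 1) := by
    intro G _ M ρ Γ k _ _ n S R htf γ hγ N hN h0
    rw [← map_pow] at h0
    have h1 := R.unipotent _ h0
    have h2 : (γ : G) ^ N = 1 := congrArg Subtype.val h1
    exact hγ (Subtype.ext (htf _ γ.2 N hN h2))
  obtain ⟨C, hC, hgap⟩ := Pool.Agent.X186.MK.gap_small K p hp P hP hpP m B n hm
  have main : ∀ (G : Type u) [Group G] (M : ℕ) (ρ : G →* Matrix (Fin M) (Fin M) ℂ)
      (Γ : Subgroup G) (k : Type) [Field k] [NumberField k]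
      (e : ℕ) (S : Finset (k →+* ℂ)) (R : Realization ρ Γ k n S), TorsionFree Γ → 0 < e →
      NearlyAbelian K P m B e k →
      ∀ γ : Γ, γ ≠ 1 → ∃ σ ∈ S, ∃ l : ℂ, IsEig (conjMat σ (R.r γ)) l ∧ IsEig (ρ γ) l ∧ 1 < ‖l‖ ∧
        (finrank ℚ k : ℝ) ≤ C * e * S.card * Real.log ‖l‖ := by
    intro G _ M ρ Γ k _ _ e S R htf he hk γ hγ
    obtain ⟨k', _, _, _, _, hgal, hB, hram⟩ := hk
    obtain ⟨σ, hσ, l, hl, hl1, hlow⟩ := hgap k k' e he hB hram S (R.r γ)
      ((Group.isUnit γ).map R.r) (fun σ hσ l hl => R.comp' _ σ hσ l hl) (aux R htf γ hγ)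
    have hl' : IsEig (conjMat σ (R.r γ)) l := hl
    exact ⟨σ, hσ, l, hl', R.eig σ hσ γ l hl', hl1, hlow⟩
  -- an eigenvalue of a conjugate
  have eigconj : ∀ {G : Type u} [Group G] {M : ℕ} (ρ : G →* Matrix (Fin M) (Fin M) ℂ) (g u : G)
      (l : ℂ), IsEig (ρ (g * u * g⁻¹)) l → IsEig (ρ u) l := by
    intro G _ M ρ g u l h
    have h2 : (ρ (g * u * g⁻¹)).charpoly = (ρ u).charpoly := by
      rw [map_mul, map_mul]
      have h4 : ρ g⁻¹ * ρ g = 1 := by rw [← map_mul, inv_mul_cancel, map_one]
      rw [Matrix.charpoly_mul_comm, ← mul_assoc, h4, one_mul]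
    rwa [IsEig, h2] at h
  refine ⟨⟨C, hC, main⟩, ?_, ?_, ?_⟩
  · intro G _ _ M ρ hρ c
    set C' : ℝ := max c 1 with hC'
    have hC'0 : 0 < C' := lt_of_lt_of_le one_pos (le_max_right _ _)
    obtain ⟨ε, hε, h⟩ := Pool.Agent.X186.MJ.exists_eps 1 (1 / (C * C')) (by positivity)
    refine ⟨_, nhd ρ hρ ε hε, ?_⟩
    rintro Γ ⟨htf, k, _, _, e, S, R, he, hk, hS⟩ g v hv hΓ
    by_contra hne
    obtain ⟨σ, hσ, l, -, hl, hl1, hlow⟩ := main G M ρ Γ k e S R htf he hk ⟨g * v * g⁻¹, hΓ⟩
      (fun h => hne (congrArg Subtype.val h))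
    have hl2 := eigconj ρ g v l hl
    have h3 : ‖l - 1‖ < ε := close_eig (ρ v) ε hε hv l hl2
    refine absurd h3 (not_lt.mpr (h l ?_ hl1))
    have hk0 : (0 : ℝ) < finrank ℚ k := by exact_mod_cast (finrank_pos : 0 < finrank ℚ k)
    have hlog : 0 < Real.log ‖l‖ := Real.log_pos hl1
    have h4 : (e : ℝ) * S.card ≤ C' * finrank ℚ k :=
      hS.trans (mul_le_mul_of_nonneg_right (le_max_left _ _) hk0.le)
    have h5 : (finrank ℚ k : ℝ) * 1 ≤ finrank ℚ k * (C * C' * Real.log ‖l‖) := by
      calc (finrank ℚ k : ℝ) * 1 = finrank ℚ k := mul_one _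
        _ ≤ C * e * S.card * Real.log ‖l‖ := hlow
        _ = C * (e * S.card) * Real.log ‖l‖ := by ring
        _ ≤ C * (C' * finrank ℚ k) * Real.log ‖l‖ := by
            apply mul_le_mul_of_nonneg_right _ hlog.le
            exact mul_le_mul_of_nonneg_left h4 hC.le
        _ = _ := by ring
    have h6 : 1 ≤ C * C' * Real.log ‖l‖ := le_of_mul_le_mul_left h5 hk0
    rw [Nat.cast_one, one_mul, div_le_iff₀ (by positivity)]
    linarith
  · intro G _ _ M ρ hρ Q hQ e s
    -- a bound for the entries
    obtain ⟨b, hb⟩ : ∃ b : ℝ, ∀ u ∈ Q, ∀ i j, ‖ρ u i j‖ ≤ b := by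
      have h1 : ∀ i j, ∃ b : ℝ, ∀ u ∈ Q, ‖ρ u i j‖ ≤ b := by
        intro i j
        have hc : Continuous fun g : G => ρ g i j := (continuous_apply_apply i j).comp hρ
        obtain ⟨b, hb⟩ := (hQ.image hc).isBounded.exists_norm_le
        exact ⟨b, fun u hu => hb _ ⟨u, hu, rfl⟩⟩
      choose b hb using h1
      refine ⟨∑ i, ∑ j, |b i j|, fun u hu i j => ?_⟩
      have h2 : |b i j| ≤ ∑ j, |b i j| :=
        Finset.single_le_sum (f := fun j => |b i j|) (fun _ _ => abs_nonneg _) (Finset.mem_univ j)
      have h3 : ∑ j, |b i j| ≤ ∑ i, ∑ j, |b i j| :=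
        Finset.single_le_sum (f := fun i => ∑ j, |b i j|)
          (fun _ _ => Finset.sum_nonneg fun _ _ => abs_nonneg _) (Finset.mem_univ i)
      exact (hb i j u hu).trans ((le_abs_self _).trans (h2.trans h3))
    set A : ℝ := max 1 (M * b) with hA
    have hA1 : 1 ≤ A := le_max_left _ _
    obtain ⟨d₀, hd₀⟩ := exists_nat_gt (C * (e + 1) * s * Real.log A)
    refine ⟨d₀, ?_⟩
    rintro Γ ⟨htf, k, _, _, S, R, hk, hS, hdeg⟩ g u hu hΓ
    by_contra hne
    have hk1 : NearlyAbelian K P m B (e + 1) k := by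
      obtain ⟨k', i1, i2, i3, i4, h1, h2, h3⟩ := hk
      exact ⟨k', i1, i2, i3, i4, h1, h2, fun 𝔓 h4 h5 => (h3 𝔓 h4 h5).trans (Nat.le_succ e)⟩
    obtain ⟨σ, hσ, l, -, hl, hl1, hlow⟩ := main G M ρ Γ k (e + 1) S R htf (Nat.succ_pos e) hk1
      ⟨g * u * g⁻¹, hΓ⟩ (fun h => hne (congrArg Subtype.val h))
    have hl2 := eigconj ρ g u l hl
    obtain ⟨v, hv, hv2⟩ := exists_eigvec (ρ u) l hl2
    have h3 : ‖l‖ ≤ A := (eig_le (ρ u) l b v hv hv2 (hb u hu)).trans (le_max_right _ _)
    have h4 : Real.log ‖l‖ ≤ Real.log A := Real.log_le_log (by linarith) h3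
    have h5 : C * ((e + 1 : ℕ) : ℝ) * S.card * Real.log ‖l‖ ≤ C * (e + 1) * s * Real.log A := by
      have hSs : (S.card : ℝ) ≤ s := by exact_mod_cast hS
      have h6 : C * ((e + 1 : ℕ) : ℝ) * S.card ≤ C * (e + 1) * s := by
        push_cast
        exact mul_le_mul_of_nonneg_left hSs (by positivity)
      exact mul_le_mul h6 h4 (Real.log_nonneg hl1.le) (by positivity)
    have h7 : (d₀ : ℝ) ≤ finrank ℚ k := by exact_mod_cast hdeg
    linarith
  · intro k' _ _ _ _ t H hab ht σ
    exact Pool.Agent.TH285.MG.conj_of_virt H hab t ht σ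

end Pool.Agent.Results.MP_162bbe_gt.NearlyAbelianFields
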